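import Pool.Agent.H85.GD.Defs

/-!
# Metrics and almost complex structures: the four-form `dd^c ω` and its trace
-/

open Set Metric MeasureTheory Filter Topology
open scoped ContDiff NNReal RealInnerProductSpace

noncomputable section

set_option maxSynthPendingDepth 3

namespace Pool.Agent.H85.PC

open Pool.Agent.W9h56.BE Pool.Agent.W5h72.BR Pool.Agent.H85.KA Pool.Agent.H85.SK

variable {E : Type*} [NormedAddCommGroup E] [InnerProductSpace ℝ E]

/-- the hermitian part `(g + g(I·, I·)) / 2` of the metric `g`; it is `g` if `g` is hermitian -/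
def herm (g : E → E →L[ℝ] E →L[ℝ] ℝ) (I : E → E →L[ℝ] E) (x : E) : E →L[ℝ] E →L[ℝ] ℝ :=
  (2⁻¹ : ℝ) • (g x + (g x).bilinearComp (I x) (I x))

/-- the three-form `d^c ω = - dω(I·, I·, I·)` of the fundamental form `ω` of the hermitian part of
`g` -/
def dct (g : E → E →L[ℝ] E →L[ℝ] ℝ) (I : E → E →L[ℝ] E) (x u v w : E) : ℝ :=
  -d2 (fund (herm g I) I) x (I x u) (I x v) (I x w)

/-- the four-form `dd^c ω` -/
def ddct (g : E → E →L[ℝ] E →L[ℝ] ℝ) (I : E → E →L[ℝ] E) (x l k i j : E) : ℝ :=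
  d3 (dct g I) x l k i j

variable [FiniteDimensional ℝ E]

/-- the components of the inverse of the fundamental form of `g` -/
def bv (g : E → E →L[ℝ] E →L[ℝ] ℝ) (I : E → E →L[ℝ] E) (x : E)
    (i j : Fin (Module.finrank ℝ E)) : ℝ :=
  inner ℝ (stdOrthonormalBasis ℝ E i) (Ring.inverse (gop (fund g I x)) (stdOrthonormalBasis ℝ E j))

/-- the double contraction of `dd^c ω'` with the inverse of the fundamental form of `g` -/
def lam (g g' : E → E →L[ℝ] E →L[ℝ] ℝ) (I : E → E →L[ℝ] E) (x : E) : ℝ :=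
  ∑ l, ∑ k, ∑ i, ∑ j, bv g I x l k * bv g I x i j *
    ddct g' I x (stdOrthonormalBasis ℝ E l) (stdOrthonormalBasis ℝ E k) (stdOrthonormalBasis ℝ E i)
      (stdOrthonormalBasis ℝ E j)

end Pool.Agent.H85.PC
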