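import Pool.Agent.H85.GD.Main
import Pool.Agent.H85.PC.Defs

/-!
# Boundary rigidity of Kaehler metrics: the trace of `dd^c ω'`
-/

open Set Metric MeasureTheory Filter Topology
open scoped ContDiff NNReal RealInnerProductSpace

noncomputable section

set_option maxSynthPendingDepth 3
set_option linter.unusedSectionVars false

namespace Pool.Agent.H85.PC

open Pool.Agent.W9h56.BE Pool.Agent.W5h72.BR Pool.Agent.H85.KA Pool.Agent.H85.SK Pool.Agent.H85.GD

variable {E : Type*} [NormedAddCommGroup E] [InnerProductSpace ℝ E] [FiniteDimensional ℝ E]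
  {g g' : E → E →L[ℝ] E →L[ℝ] ℝ} {e L e' L' : E → E → E} {I : E → E →L[ℝ] E} {ρ : E → ℝ}

section hermitian

/-- the hermitian part at a point -/
def hp (q : (E →L[ℝ] E →L[ℝ] ℝ) × (E →L[ℝ] E)) : E →L[ℝ] E →L[ℝ] ℝ :=
  (2⁻¹ : ℝ) • (q.1 + ((ContinuousLinearMap.compL ℝ E E ℝ).flip q.2) ∘L (q.1 ∘L q.2))

omit [FiniteDimensional ℝ E] in
lemma hp_apply (B : E →L[ℝ] E →L[ℝ] ℝ) (A : E →L[ℝ] E) (v w : E) :
    hp (B, A) v w = 2⁻¹ * (B v w + B (A v) (A w)) := rfl

omit [FiniteDimensional ℝ E] in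
lemma herm_eq (g : E → E →L[ℝ] E →L[ℝ] ℝ) (I : E → E →L[ℝ] E) :
    herm g I = fun x => hp (g x, I x) := by
  funext x
  ext v w
  rfl

omit [FiniteDimensional ℝ E] in
lemma herm_apply (g : E → E →L[ℝ] E →L[ℝ] ℝ) (I : E → E →L[ℝ] E) (x v w : E) :
    herm g I x v w = 2⁻¹ * (g x v w + g x (I x v) (I x w)) := rfl

omit [FiniteDimensional ℝ E] in
lemma contDiff_hp : ContDiff ℝ ∞ (hp : (E →L[ℝ] E →L[ℝ] ℝ) × (E →L[ℝ] E) → E →L[ℝ] E →L[ℝ] ℝ) := by
  have h1 : ContDiff ℝ ∞ (fun q : (E →L[ℝ] E →L[ℝ] ℝ) × (E →L[ℝ] E) =>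
      (ContinuousLinearMap.compL ℝ E E ℝ).flip q.2) :=
    ((ContinuousLinearMap.compL ℝ E E ℝ).flip).contDiff.comp contDiff_snd
  exact (contDiff_fst.add (h1.clm_comp (contDiff_fst.clm_comp contDiff_snd))).const_smul (2⁻¹ : ℝ)

omit [FiniteDimensional ℝ E] in
lemma contDiff_herm (hg : ContDiff ℝ ∞ g) (hI : ContDiff ℝ ∞ I) : ContDiff ℝ ∞ (herm g I) := by
  rw [herm_eq]
  exact contDiff_hp.comp (hg.prodMk hI)

omit [FiniteDimensional ℝ E] in
lemma fderiv_herm (hg : ContDiff ℝ ∞ g) (hI : ContDiff ℝ ∞ I) (x : E) :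
    fderiv ℝ (herm g I) x = (fderiv ℝ hp (g x, I x)).comp ((fderiv ℝ g x).prod (fderiv ℝ I x)) := by
  rw [herm_eq]
  have h1 := (contDiff_hp.differentiable (by simp) (g x, I x)).hasFDerivAt
  have h2 := ((hg.differentiable (by simp) x).hasFDerivAt).prodMk
    ((hI.differentiable (by simp) x).hasFDerivAt)
  exact (h1.comp x h2).fderiv

omit [FiniteDimensional ℝ E] in
lemma herm_self (ho : IsHermitian g I) {x : E} (hx : x ∈ closedBall (0 : E) 1) :
    herm g I x = g x := by
  ext v w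
  rw [herm_apply, ho x hx]
  ring

omit [FiniteDimensional ℝ E] in
/-- the one-jets of the hermitian part -/
lemma herm_jet (hg : ContDiff ℝ ∞ g) (hg' : ContDiff ℝ ∞ g') (hI : ContDiff ℝ ∞ I)
    (ho : IsHermitian g I) (hj : SameJet g g') {p : E} (hp : p ∈ sphere (0 : E) 1) :
    herm g' I p = g p ∧ fderiv ℝ (herm g' I) p = fderiv ℝ g p := by
  have hpM := mem_of_sphere hp
  obtain ⟨h0, h1⟩ := hj p hp
  have h2 : fderiv ℝ (herm g I) p = fderiv ℝ g p := by
    have d1 := ((contDiff_herm hg hI).differentiable (by simp) p).hasFDerivAt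
    have d2 := (hg.differentiable (by simp) p).hasFDerivAt
    have h3 := fderiv_zero_of_ball hpM (d1.sub d2) fun y hy => by
      simp only [Pi.sub_apply]
      rw [herm_self ho hy, sub_self]
    exact sub_eq_zero.1 h3
  refine ⟨?_, ?_⟩
  · rw [← herm_self ho hpM]
    ext v w
    rw [herm_apply, herm_apply, h0]
  · rw [← h2, fderiv_herm hg' hI, fderiv_herm hg hI, h0, h1]

/-- the trace of the hermitian part -/
lemma ntr_herm (hm : IsMetric g) (hsq : ∀ x ∈ closedBall (0 : E) 1, ∀ v, I x (I x v) = -v)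
    (ho : IsHermitian g I) {x : E} (hx : x ∈ closedBall (0 : E) 1) :
    ntr (g x) (herm g' I x) = ntr (g x) (g' x) := by
  obtain ⟨A, hA, -, -⟩ := frame hm hx
  set Ie : E ≃ₗ[ℝ] E := LinearEquiv.ofLinearMap (I x : E →ₗ[ℝ] E) (-(I x : E →ₗ[ℝ] E))
    (by ext v; simp [hsq x hx]) (by ext v; simp [hsq x hx]) with hIe
  have hIev : ∀ v, Ie v = I x v := fun v => rfl
  have hA' : ∀ v w, g x ((A.trans Ie) v) ((A.trans Ie) w) = inner ℝ v w := fun v w => by
    rw [LinearEquiv.trans_apply, LinearEquiv.trans_apply, hIev, hIev, ho x hx, hA]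
  have h1 := frame_trace hA (g' x)
  have h2 := frame_trace hA' (g' x)
  have h3 := frame_trace hA (herm g' I x)
  have h4 : ∑ i, herm g' I x (A (stdOrthonormalBasis ℝ E i)) (A (stdOrthonormalBasis ℝ E i)) =
      2⁻¹ * (∑ i, g' x (A (stdOrthonormalBasis ℝ E i)) (A (stdOrthonormalBasis ℝ E i)) +
        ∑ i, g' x ((A.trans Ie) (stdOrthonormalBasis ℝ E i))
          ((A.trans Ie) (stdOrthonormalBasis ℝ E i))) := by
    rw [← Finset.sum_add_distrib, Finset.mul_sum]
    refine Finset.sum_congr rfl fun i _ => ?_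
    rw [herm_apply, LinearEquiv.trans_apply, hIev]
  rw [h3, h4, mul_add, add_div, mul_div_assoc, mul_div_assoc, ← h1, ← h2]
  ring

end hermitian

section trace

variable (D : Pt g (herm g' I) I ρ)
include D

/-- the contraction of the four-vector and `dd^c ω'` -/
lemma cf_lam (hm : IsMetric g) {x : E} (hx : x ∈ closedBall (0 : E) 1) :
    4 * D.cf (stdOrthonormalBasis ℝ E) x = -(3 * (lam g g' I x * dens (g x))) := by
  set b := stdOrthonormalBasis ℝ E with hb
  obtain ⟨hRa, hRO, hOR⟩ := Rf_facts (D.uOm hx) (D.aOm hx)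
  have hR := rm_anti b hRa
  have hd : ∀ u v w, DifferentiableAt ℝ (fun y => dcForm I (fund (herm g' I) I) y u v w) x :=
    fun u v w => (contDiff_dc D.hg' D.hI u v w).differentiable (by simp) x
  have h1 := sum_four (m := pf (op (fund g I) x)) (R := rm b (Rf (op (fund g I)) x)) hR
    (fun l k i j => fderiv ℝ (D.hf b k i j) x (b l))
  have h3 : ∑ l, ∑ k, ∑ i, ∑ j, qq (pf (op (fund g I) x)) (rm b (Rf (op (fund g I)) x)) l k i j *
      d3 (dcForm I (fund (herm g' I) I)) x (b l) (b k) (b i) (b j) = 4 * D.cf b x := h1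
  have h4 : ∀ l k i j, ddct g' I x l k i j = - d3 (dcForm I (fund (herm g' I) I)) x l k i j := by
    intro l k i j
    have h5 : ∀ u v w, fderiv ℝ (fun y => dct g' I y u v w) x =
        - fderiv ℝ (fun y => dcForm I (fund (herm g' I) I) y u v w) x := fun u v w =>
      ((hd u v w).hasFDerivAt.neg).fderiv
    simp only [ddct, d3, h5, neg_apply]
    ring
  have e3 : pf (op (fund g I) x) = dens (g x) := pf_op (D.hsq x hx) (det_pos hm hx)
  rw [← h3]
  have h5 : ∀ l, ∑ k, ∑ i, ∑ j, qq (pf (op (fund g I) x)) (rm b (Rf (op (fund g I)) x)) l k i j *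
      d3 (dcForm I (fund (herm g' I) I)) x (b l) (b k) (b i) (b j) =
      3 * (pf (op (fund g I) x) * ∑ k, ∑ i, ∑ j, rm b (Rf (op (fund g I)) x) l k *
        rm b (Rf (op (fund g I)) x) i j *
          d3 (dcForm I (fund (herm g' I) I)) x (b l) (b k) (b i) (b j)) := fun l =>
    sum_qq l (H := fun k i j => d3 (dcForm I (fund (herm g' I) I)) x (b l) (b k) (b i) (b j))
      fun k i j => d3_cyc hx hd (fun y _ u v w => dc_cyc y u v w)
        (fun y hy u v w => d2_skew D.hg' D.hI (fun x hx => D.fa' hx) hy _ _ _) _ _ _ _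
  simp only [h5]
  rw [← Finset.mul_sum, ← Finset.mul_sum, e3, lam]
  simp only [h4, mul_neg, Finset.sum_neg_distrib]
  rw [← hb]
  have h6 : ∀ i j, bv g I x i j = rm b (Rf (op (fund g I)) x) i j := fun i j => rfl
  simp only [h6]
  ring

end trace

variable [MeasurableSpace E] [BorelSpace E]

/-- **the energy of the identity** -/
theorem energy_eq' (D : Pt g (herm g' I) I ρ) (hgm : IsMetric g) (hgm' : IsMetric g')
    (hn0 : 0 < Module.finrank ℝ E) :
    (Module.finrank ℝ E : ℝ) * (Module.finrank ℝ E - 2) / 2 *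
      ((∫ x in closedBall (0 : E) 1, ntr (g x) (g' x) * dens (g x)) - vol g) =
      1 / 4 * ∫ x in closedBall (0 : E) 1, ρ x * lam g g' I x * dens (g x) := by
  set b := stdOrthonormalBasis ℝ E with hb
  have hcard : (Fintype.card (Fin (Module.finrank ℝ E)) : ℝ) = Module.finrank ℝ E := by
    rw [Fintype.card_fin]
  have hcd := (continuous_dens hgm.cont).continuousOn (s := closedBall (0 : E) 1)
  have i1 : IntegrableOn (fun x => ntr (g x) (g' x) * dens (g x)) (closedBall (0 : E) 1) :=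
    intOn ((continuousOn_ntr hgm hgm'.cont).mul hcd)
  have i2 : IntegrableOn (D.pf3 b ρ) (closedBall (0 : E) 1) :=
    intOn (D.cont_pf3 b (D.hP.1.of_le (by norm_cast)))
  have i3 : IntegrableOn (fun x => ρ x * D.cf b x) (closedBall (0 : E) 1) :=
    intOn (D.hP.1.continuous.continuousOn.mul (D.cont_cf b))
  -- the first field
  have h1 := int_div hn0 b (V := D.vf b) (fun k x hx => D.c_vf b hx k) (fun k p hp => D.z_vf b hp k)
  have h2 : ∀ x ∈ closedBall (0 : E) 1, ∑ k, fderiv ℝ (D.vf b k) x (b k) =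
      -(((Module.finrank ℝ E : ℝ) - 2) / 2 * (Module.finrank ℝ E *
        (ntr (g x) (g' x) * dens (g x) - dens (g x)))) + 1 / 3 * D.pf3 b ρ x := by
    intro x hx
    rw [D.div1 b hx, hcard, hb, D.tr_eq hgm hn0 hx, ntr_herm hgm D.hsq D.ho hx]
  rw [setIntegral_congr_fun measurableSet_closedBall h2, integral_add, integral_neg,
    integral_const_mul, integral_const_mul, integral_const_mul, integral_sub i1 (intOn hcd)] at h1
  rotate_left
  · exact (((i1.sub (intOn hcd)).const_mul _).const_mul _).neg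
  · exact i2.const_mul _
  -- the second field
  have hρ : ContDiff ℝ 1 ρ := D.hP.1.of_le (by norm_cast)
  have h3 := int_div hn0 b (V := D.wf b ρ) (fun l x hx => D.c_wf b hρ hx l)
    (fun l p hp => D.z_wf b hp l)
  rw [setIntegral_congr_fun measurableSet_closedBall fun x hx => D.div2 b hρ hx,
    integral_add i2 i3] at h3
  have h4 : ∫ x in closedBall (0 : E) 1, ρ x * D.cf b x =
      -(3 / 4 * ∫ x in closedBall (0 : E) 1, ρ x * lam g g' I x * dens (g x)) := by
    rw [← integral_const_mul, ← integral_neg]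
    refine setIntegral_congr_fun measurableSet_closedBall fun x hx => ?_
    have h5 := cf_lam D hgm hx
    rw [← hb] at h5
    have h6 : D.cf b x = -(3 / 4 * (lam g g' I x * dens (g x))) := by linarith
    simp only [h6]
    ring
  rw [vol]
  rw [h4] at h3
  linarith

/-- rigidity -/
theorem rigid (hn : 3 ≤ Module.finrank ℝ E) (h : Simple g e L) (hg' : IsMetric g')
    (D : Pt g (herm g' I) I ρ)
    (hρ : ∫ x in closedBall (0 : E) 1, ρ x * lam g g' I x * dens (g x) ≤ 0)
    (hd : ∀ p ∈ sphere (0 : E) 1, ∀ q ∈ sphere (0 : E) 1, gdist g p q ≤ gdist g' p q) :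
    ∀ x ∈ closedBall (0 : E) 1, g' x = g x := by
  have hn0 : 0 < Module.finrank ℝ E := by omega
  have hi := energy_eq' D (Simple_isMetric h) hg' hn0
  have hn3 : (3 : ℝ) ≤ Module.finrank ℝ E := by exact_mod_cast hn
  have h1 : (∫ x in closedBall (0 : E) 1, ntr (g x) (g' x) * dens (g x)) ≤ vol g := by
    by_contra hcon
    push Not at hcon
    have h2 : 0 < (Module.finrank ℝ E : ℝ) * (Module.finrank ℝ E - 2) / 2 :=
      half_pos (mul_pos (by linarith) (by linarith))
    have := mul_pos h2 (sub_pos.2 hcon)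
    linarith
  have he : energy 2 g g' id ≤ vol g := by
    refine le_trans (le_of_eq ?_) h1
    refine setIntegral_congr_fun measurableSet_closedBall fun x _ => ?_
    simp only [pull_id']
    norm_num
  have hiso := energy_eq hn0 h hg' bdry_id hd one_lt_two he
  intro x hx
  rw [← pull_id' g' x]
  exact hiso x hx

/-- the main theorem -/
theorem main (hn : 3 ≤ Module.finrank ℝ E) (hg : IsSimpleM g) (hg' : IsSimpleM g')
    (hI : IsAlmostComplex I) (ho : IsHermitian g I) (hP : IsPotential g I ρ)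
    (hj : IsHermitian g' I ∨ SameJet g g')
    (hρ : ∫ x in closedBall (0 : E) 1, ρ x * lam g g' I x * dens (g x) ≤ 0) (hd : BdryLE g g')
    (hd' : BdryLE g' g) : ∀ x ∈ closedBall (0 : E) 1, g' x = g x := by
  obtain ⟨e, L, h⟩ := hg
  obtain ⟨e', L', h'⟩ := hg'
  have hgd : ∀ p ∈ sphere (0 : E) 1, ∀ q ∈ sphere (0 : E) 1, gdist g p q = gdist g' p q := by
    intro p hp q hq
    have h1 := hd p hp q hq
    have h2 := hd' p hp q hq
    rw [gd_eq, gd_eq] at h1 h2
    exact le_antisymm h1 h2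
  have hj' : SameJet g g' := by
    rcases hj with ho' | hj
    · exact fun p hp => jet_eq h h' (hI.1.of_le (by norm_cast)) hI.2 ho ho'
        (rho_of_gdist h h' hgd) hp
    · exact hj
  refine rigid hn h (Simple_isMetric h') (I := I) (ρ := ρ) ⟨h.smooth, contDiff_herm h'.smooth hI.1,
    hI.1, hP, hI.2, h.symm, fun x hx v w => ?_, ho, fun x hx v w => ?_, h.pos,
    fun p hp => herm_jet h.smooth h'.smooth hI.1 ho hj' hp⟩ hρ fun p hp q hq => (hgd p hp q hq).le
  · rw [herm_apply, herm_apply, h'.symm x hx v w, h'.symm x hx (I x v) (I x w)]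
  · rw [herm_apply, herm_apply, hI.2 x hx, hI.2 x hx, map_neg, map_neg, neg_apply, neg_neg]
    ring

end Pool.Agent.H85.PC
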